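import Pool.Agent.Run7.h402.PG.Iface

/-!
# Pieces REP and DV of project PG (helper402), by helper594
-/

set_option autoImplicit false
set_option linter.all false

open Finset

namespace Pool.Agent.Run7.h594.PG

open Run7.h402.PG

theorem card_sub {α : Type} [Fintype α] (P : α → Prop) [DecidablePred P] :
    Nat.card {x // P x} = (univ.filter P).card := by
  rw [Nat.card_eq_fintype_card, Fintype.card_subtype]

section

variable {α : Type} [Fintype α] (F : α → ℤ)

/-- the number of representations -/
def rr (x : ℤ) : ℕ := (univ.filter (fun a => F a = x)).card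

theorem cnt [DecidableEq α] (s : ℤ) : (univ.filter (fun q : α × α => F q.1 - F q.2 = s)).card =
    ∑ x ∈ univ.image F, rr F (x + s) * rr F x := by
  rw [Finset.card_eq_sum_card_fiberwise (f := fun q : α × α => F q.2) (t := univ.image F)
    (fun q _ => Finset.mem_coe.2 (Finset.mem_image_of_mem F (Finset.mem_univ _)))]
  refine Finset.sum_congr rfl fun x _ => ?_
  unfold rr
  rw [← Finset.card_product]
  congr 1
  ext ⟨a, b⟩
  simp only [Finset.mem_filter, Finset.mem_univ, true_and, Finset.mem_product]
  constructor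
  · rintro ⟨h1, h2⟩
    exact ⟨by linarith, h2⟩
  · rintro ⟨h1, h2⟩
    exact ⟨by linarith, h2⟩

theorem gen [DecidableEq α] (s : ℤ) : (univ.filter (fun q : α × α => F q.1 - F q.2 = s)).card ≤
    (univ.filter (fun q : α × α => F q.1 = F q.2)).card := by
  have h0 : (univ.filter (fun q : α × α => F q.1 = F q.2)).card = ∑ x ∈ univ.image F, rr F x ^ 2 := by
    have h1 := cnt F 0
    have h2 : (univ.filter (fun q : α × α => F q.1 = F q.2)) =
        (univ.filter (fun q : α × α => F q.1 - F q.2 = 0)) := by
      ext q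
      simp only [Finset.mem_filter, Finset.mem_univ, true_and, sub_eq_zero]
    rw [h2, h1]
    refine Finset.sum_congr rfl fun x _ => ?_
    rw [add_zero, sq]
  have h3 : ∑ x ∈ univ.image F, rr F (x + s) ^ 2 ≤ ∑ x ∈ univ.image F, rr F x ^ 2 := by
    have h4 : ∑ x ∈ univ.image F, rr F (x + s) ^ 2 =
        ∑ y ∈ (univ.image F).image (fun x => x + s), rr F y ^ 2 := by
      symm
      exact Finset.sum_image (f := fun y => rr F y ^ 2) (g := fun x => x + s) (s := univ.image F)
        (fun a _ b _ hab => add_right_cancel hab)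
    rw [h4]
    have h5 : ∑ y ∈ (univ.image F).image (fun x => x + s), rr F y ^ 2 ≤
        ∑ y ∈ univ.image F ∪ (univ.image F).image (fun x => x + s), rr F y ^ 2 :=
      Finset.sum_le_sum_of_subset Finset.subset_union_right
    refine h5.trans (le_of_eq ?_)
    symm
    refine Finset.sum_subset Finset.subset_union_left fun y _ hy => ?_
    have h6 : rr F y = 0 := by
      unfold rr
      rw [Finset.card_eq_zero, Finset.filter_eq_empty_iff]
      intro a _ ha
      exact hy (Finset.mem_image.2 ⟨a, Finset.mem_univ _, ha⟩)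
    rw [h6]
    rfl
  have h7 : 2 * ∑ x ∈ univ.image F, rr F (x + s) * rr F x ≤
      ∑ x ∈ univ.image F, rr F (x + s) ^ 2 + ∑ x ∈ univ.image F, rr F x ^ 2 := by
    rw [Finset.mul_sum, ← Finset.sum_add_distrib]
    refine Finset.sum_le_sum fun x _ => ?_
    nlinarith [sq_nonneg ((rr F (x + s) : ℤ) - rr F x), two_mul_le_add_sq (rr F (x + s)) (rr F x)]
  rw [cnt F s, h0]
  omega

end

theorem t_REP : S_REP := by
  intro h T v s
  have h1 := gen (fun a : Fin h → Fin T => ∑ j, v (a j)) s
  unfold En
  rw [card_sub, card_sub]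
  exact h1

theorem t_DV (hR : S_REP) : S_DV := by
  intro p T M e v he hv
  set D := univ.filter (fun x : Fin T × Fin T => (e : ℤ) ∣ v x.1 - v x.2) with hD
  set F : (Fin p → Fin T) → ℤ := fun a => ∑ j, v (a j) with hF
  set E := univ.filter (fun q : (Fin p → Fin T) × (Fin p → Fin T) => (e : ℤ) ∣ F q.1 - F q.2) with hE
  set R : ℕ := 2 * p * M / e with hRd
  have h1 : D.card ^ p ≤ E.card := by
    have h2 : (Fintype.piFinset (fun _ : Fin p => D)).card = D.card ^ p := by
      rw [Fintype.card_piFinset]
      simp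
    rw [← h2]
    refine Finset.card_le_card_of_injOn (fun f => (fun j => (f j).1, fun j => (f j).2)) ?_ ?_
    · intro f hf
      have hf' : ∀ j, f j ∈ D := fun j => (Fintype.mem_piFinset.1 (Finset.mem_coe.1 hf)) j
      rw [Finset.mem_coe, hE, Finset.mem_filter]
      refine ⟨Finset.mem_univ _, ?_⟩
      change (e : ℤ) ∣ ∑ j, v (f j).1 - ∑ j, v (f j).2
      rw [← Finset.sum_sub_distrib]
      exact Finset.dvd_sum fun j _ => (Finset.mem_filter.1 (hf' j)).2
    · intro f _ g _ hfg
      funext j
      rw [Prod.mk.injEq] at hfg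
      exact Prod.ext (congrFun hfg.1 j) (congrFun hfg.2 j)
  have hFb : ∀ a, |F a| ≤ p * M := fun a => by
    rw [hF]
    refine (Finset.abs_sum_le_sum_abs _ _).trans ?_
    refine (Finset.sum_le_sum fun j _ => hv (a j)).trans ?_
    simp
  have h3 : E ⊆ (Finset.Icc (-(R : ℤ)) R).biUnion fun J =>
      univ.filter (fun q : (Fin p → Fin T) × (Fin p → Fin T) => F q.1 - F q.2 = e * J) := by
    intro q hq
    obtain ⟨J, hJ⟩ := (Finset.mem_filter.1 hq).2
    rw [Finset.mem_biUnion]
    refine ⟨J, ?_, Finset.mem_filter.2 ⟨Finset.mem_univ _, hJ⟩⟩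
    have h4 : |F q.1 - F q.2| ≤ 2 * p * M := by
      have := abs_sub (F q.1) (F q.2)
      have e1 := hFb q.1
      have e2 := hFb q.2
      linarith
    rw [hJ, abs_mul, Nat.abs_cast] at h4
    have h5 : |J| ≤ R := by
      have h6 : e * J.natAbs ≤ 2 * p * M := by
        zify
        exact h4
      have h7 : J.natAbs ≤ R := (Nat.le_div_iff_mul_le (by omega)).2 (by rw [mul_comm]; exact h6)
      rw [Int.abs_eq_natAbs]
      exact_mod_cast h7
    rw [Finset.mem_Icc]
    exact abs_le.1 h5
  have h8 : E.card ≤ (2 * R + 1) * En p v := by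
    refine (Finset.card_le_card h3).trans (Finset.card_biUnion_le.trans ?_)
    have h9 : ∀ J ∈ Finset.Icc (-(R : ℤ)) R,
        (univ.filter (fun q : (Fin p → Fin T) × (Fin p → Fin T) => F q.1 - F q.2 = e * J)).card ≤
          En p v := by
      intro J _
      have h10 := hR p T v (e * J)
      rw [card_sub] at h10
      exact h10
    refine (Finset.sum_le_sum h9).trans (le_of_eq ?_)
    rw [Finset.sum_const, Int.card_Icc, smul_eq_mul]
    congr 1
    omega
  calc e * D.card ^ p ≤ e * ((2 * R + 1) * En p v) := Nat.mul_le_mul_left _ (h1.trans h8)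
    _ = (e * R * 2 + e) * En p v := by ring
    _ ≤ (4 * p * M + e) * En p v := by
      refine Nat.mul_le_mul_right _ ?_
      have h11 : e * R ≤ 2 * p * M := Nat.mul_div_le _ _
      nlinarith

end Pool.Agent.Run7.h594.PG
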